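import Mathlib

set_option autoImplicit false

namespace Pool.Agent.Lib.MP_af9f8b_co

open Classical in
/-- Abstract centroid recursion on a nested system of cells.  Every vertex `v` has a level
`lev v` and addresses `c k v`; `meets k z v` says that the object `v` meets the cell of level `k`
and address `z`. -/
theorem rec_colour {V Z : Type*} (adj : V → V → Prop) (hsymm : ∀ v w, adj v w → adj w v)
    (lev : V → ℕ) (c : ℕ → V → Z) (meets : ℕ → Z → V → Prop) (K : ℕ) (S : Finset V)
    (h1 : ∀ v ∈ S, ∀ w ∈ S, adj v w → ∀ k, k ≤ lev v → k ≤ lev w → c k v = c k w)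
    (h2 : ∀ v ∈ S, ∀ k, meets k (c k v) v)
    (h3 : ∀ v ∈ S, ∀ w ∈ S, adj v w → ∀ k z, k ≤ lev v → meets k z v → meets k z w)
    (h4 : ∀ k z, ∃ f : V → ℕ, (∀ v ∈ S, lev v ≤ k → meets k z v → f v < K) ∧
      ∀ v ∈ S, ∀ w ∈ S, lev v ≤ k → lev w ≤ k → meets k z v → meets k z w → adj v w →
        f v ≠ f w) :
    ∀ m : ℕ, ∀ F : Finset V, F ⊆ S → F.card < 2 ^ m →
      ∃ col : V → ℕ, (∀ v ∈ F, col v < K * m) ∧ ∀ v ∈ F, ∀ w ∈ F, adj v w → col v ≠ col w := by
  intro m
  induction m with
  | zero =>
    intro F _ hF
    have : F = ∅ := by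
      rw [← Finset.card_eq_zero]; simpa using hF
    subst this
    exact ⟨fun _ => 0, by simp, by simp⟩
  | succ m ih =>
    intro F hFS hF
    -- the splitting step
    have key : ∀ (B : V → Prop) (f : V → ℕ) (g : V → Option Z),
        (∀ v ∈ F, B v → f v < K) →
        (∀ v ∈ F, ∀ w ∈ F, B v → B w → adj v w → f v ≠ f w) →
        (∀ v ∈ F, ∀ w ∈ F, ¬ B v → ¬ B w → adj v w → g v = g w) →
        (∀ z, ∃ T : Finset V, T.card < 2 ^ m ∧ ∀ v ∈ F, ¬ B v → g v = z → v ∈ T) →
        ∃ col : V → ℕ, (∀ v ∈ F, col v < K * (m + 1)) ∧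
          ∀ v ∈ F, ∀ w ∈ F, adj v w → col v ≠ col w := by
      intro B f g hf hfB hg hcard0
      have hcard : ∀ z, (F.filter (fun v => ¬ B v ∧ g v = z)).card < 2 ^ m := by
        intro z
        obtain ⟨T, hT, hT2⟩ := hcard0 z
        refine lt_of_le_of_lt (Finset.card_le_card ?_) hT
        intro v hv
        rw [Finset.mem_filter] at hv
        exact hT2 v hv.1 hv.2.1 hv.2.2
      have := fun z => ih (F.filter (fun v => ¬ B v ∧ g v = z))
        ((Finset.filter_subset _ _).trans hFS) (hcard z)
      choose col hcol1 hcol2 using this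
      refine ⟨fun v => if B v then K * m + f v else col (g v) v, ?_, ?_⟩
      · intro v hv
        by_cases hB : B v
        · simp only [hB, if_true]
          have := hf v hv hB
          rw [Nat.mul_succ]; omega
        · simp only [hB, if_false]
          have := hcol1 (g v) v (Finset.mem_filter.2 ⟨hv, hB, rfl⟩)
          rw [Nat.mul_succ]; omega
      · intro v hv w hw hadj
        by_cases hBv : B v <;> by_cases hBw : B w <;> simp only [hBv, hBw, if_true, if_false]
        · have := hfB v hv w hw hBv hBw hadj
          omega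
        · have := hcol1 (g w) w (Finset.mem_filter.2 ⟨hw, hBw, rfl⟩)
          omega
        · have := hcol1 (g v) v (Finset.mem_filter.2 ⟨hv, hBv, rfl⟩)
          omega
        · have hgvw := hg v hv w hw hBv hBw hadj
          rw [← hgvw]
          exact hcol2 (g v) v (Finset.mem_filter.2 ⟨hv, hBv, rfl⟩) w
            (Finset.mem_filter.2 ⟨hw, hBw, hgvw.symm⟩) hadj
    let P : ℕ → Prop := fun k =>
      ∃ z, 2 ^ m ≤ (F.filter (fun v => k ≤ lev v ∧ c k v = z)).card
    by_cases hP0 : P 0
    · -- a deepest heavy cell exists
      have hbound : ∀ k, P k → k ≤ F.sup lev := by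
        rintro k ⟨z, hz⟩
        have hpos : 0 < (F.filter (fun v => k ≤ lev v ∧ c k v = z)).card :=
          lt_of_lt_of_le (by positivity) hz
        obtain ⟨v, hv⟩ := Finset.card_pos.1 hpos
        rw [Finset.mem_filter] at hv
        exact hv.2.1.trans (Finset.le_sup hv.1)
      obtain ⟨k, hPk, hPk1⟩ : ∃ k, P k ∧ ¬ P (k + 1) := by
        by_contra hcon
        push Not at hcon
        have : ∀ k, P k := by
          intro k
          induction k with
          | zero => exact hP0
          | succ k ihk => exact hcon k ihk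
        have := hbound _ (this (F.sup lev + 1))
        omega
      obtain ⟨z, hz⟩ := hPk
      obtain ⟨f, hf1, hf2⟩ := h4 k z
      refine key (fun v => lev v ≤ k ∧ meets k z v) f
        (fun v => if meets k z v then some (c (k + 1) v) else none) ?_ ?_ ?_ ?_
      · intro v hv hB
        exact hf1 v (hFS hv) hB.1 hB.2
      · intro v hv w hw hBv hBw hadj
        exact hf2 v (hFS hv) w (hFS hw) hBv.1 hBw.1 hBv.2 hBw.2 hadj
      · intro v hv w hw hBv hBw hadj
        by_cases hmv : meets k z v
        · have hlv : k + 1 ≤ lev v := by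
            by_contra hh; exact hBv ⟨by omega, hmv⟩
          have hmw : meets k z w := h3 v (hFS hv) w (hFS hw) hadj k z (by omega) hmv
          have hlw : k + 1 ≤ lev w := by
            by_contra hh; exact hBw ⟨by omega, hmw⟩
          simp only [hmv, hmw, if_true]
          rw [h1 v (hFS hv) w (hFS hw) hadj (k + 1) hlv hlw]
        · by_cases hmw : meets k z w
          · have hlw : k + 1 ≤ lev w := by
              by_contra hh; exact hBw ⟨by omega, hmw⟩
            exact absurd (h3 w (hFS hw) v (hFS hv) (hsymm _ _ hadj) k z (by omega) hmw) hmv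
          · simp only [hmv, hmw, if_false]
      · intro z'
        cases z' with
        | none =>
          refine ⟨F \ F.filter (fun v => k ≤ lev v ∧ c k v = z), ?_, ?_⟩
          · rw [Finset.card_sdiff_of_subset (Finset.filter_subset _ _)]
            rw [pow_succ] at hF
            omega
          · intro v hv hB hg
            rw [Finset.mem_sdiff, Finset.mem_filter]
            refine ⟨hv, ?_⟩
            rintro ⟨_, _, hc⟩
            have hm : meets k z v := hc ▸ h2 v (hFS hv) k
            simp [hm] at hg
        | some z' =>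
          refine ⟨F.filter (fun v => k + 1 ≤ lev v ∧ c (k + 1) v = z'), ?_, ?_⟩
          · by_contra hh
            exact hPk1 ⟨z', not_lt.1 hh⟩
          · intro v hv hB hg
            rw [Finset.mem_filter]
            by_cases hm : meets k z v
            · simp only [hm, if_true, Option.some.injEq] at hg
              refine ⟨hv, ?_, hg⟩
              by_contra hh; exact hB ⟨by omega, hm⟩
            · simp [hm] at hg
    · refine key (fun _ => False) (fun _ => 0) (fun v => some (c 0 v)) ?_ ?_ ?_ ?_
      · intro v _ h; exact h.elim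
      · intro v _ w _ h; exact h.elim
      · intro v hv w hw _ _ hadj
        rw [h1 v (hFS hv) w (hFS hw) hadj 0 (Nat.zero_le _) (Nat.zero_le _)]
      · intro z'
        cases z' with
        | none => exact ⟨∅, by simp, by simp⟩
        | some z' =>
          refine ⟨F.filter (fun v => 0 ≤ lev v ∧ c 0 v = z'), ?_, ?_⟩
          · by_contra hh
            exact hP0 ⟨z', not_lt.1 hh⟩
          · intro v hv _ hg
            rw [Finset.mem_filter]
            exact ⟨hv, Nat.zero_le _, Option.some.inj hg⟩

end Pool.Agent.Lib.MP_af9f8b_co
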