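import Mathlib
import Pool.Agent.Lib.MP_af9f8b_co.Recursion

set_option autoImplicit false

namespace Pool.Agent.Lib.MP_af9f8b_co

abbrev E := EuclideanSpace ℝ (Fin 2)

lemma exists_int_near_of_floor_ne {a b : ℝ} (h : ⌊a⌋ ≠ ⌊b⌋) : ∃ m : ℤ, |(m : ℝ) - b| ≤ |a - b| := by
  rcases lt_or_gt_of_ne h with h | h
  · refine ⟨⌊b⌋, ?_⟩
    have h1 : a < ⌊a⌋ + 1 := Int.lt_floor_add_one a
    have h2 : ((⌊a⌋ + 1 : ℤ) : ℝ) ≤ ⌊b⌋ := by exact_mod_cast h
    have h3 : (⌊b⌋ : ℝ) ≤ b := Int.floor_le b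
    push_cast at h2
    rw [abs_of_nonpos (by linarith), abs_of_nonpos (by linarith)]
    linarith
  · refine ⟨⌊a⌋, ?_⟩
    have h1 : b < ⌊b⌋ + 1 := Int.lt_floor_add_one b
    have h2 : ((⌊b⌋ + 1 : ℤ) : ℝ) ≤ ⌊a⌋ := by exact_mod_cast h
    have h3 : (⌊a⌋ : ℝ) ≤ a := Int.floor_le a
    push_cast at h2
    rw [abs_of_nonneg (by linarith), abs_of_nonneg (by linarith)]
    linarith

/-- index of the dyadic interval of level `k` (unit `U`, shift `j / 3`) containing `x` -/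
noncomputable def idx (U : ℝ) (j : Fin 2) (k : ℕ) (x : ℝ) : ℤ := ⌊2 ^ k * (x / U - (j : ℝ) / 3)⌋

lemma idx_succ {U : ℝ} {j : Fin 2} {k : ℕ} {x y : ℝ} (h : idx U j (k + 1) x = idx U j (k + 1) y) :
    idx U j k x = idx U j k y := by
  have key : ∀ t : ℝ, idx U j k t = idx U j (k + 1) t / 2 := by
    intro t
    unfold idx
    have : (2 : ℝ) ^ k * (t / U - (j : ℝ) / 3) = (2 ^ (k + 1) * (t / U - (j : ℝ) / 3)) / (2 : ℕ) := by
      push_cast; ring
    rw [this, Int.floor_div_natCast]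
    simp
  rw [key x, key y, h]

lemma idx_mono {U : ℝ} {j : Fin 2} {k l : ℕ} (hkl : k ≤ l) {x y : ℝ}
    (h : idx U j l x = idx U j l y) : idx U j k x = idx U j k y := by
  induction l, hkl using Nat.le_induction with
  | base => exact h
  | succ l _ ih => exact ih (idx_succ h)

/-- the one-third shifting trick -/
lemma exists_shift {U : ℝ} (hU : 0 < U) (k : ℕ) (x ρ : ℝ) (hρ : 6 * ρ < U / 2 ^ k) :
    ∃ j : Fin 2, ∀ y, |y - x| ≤ ρ → idx U j k y = idx U j k x := by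
  by_contra hcon
  push Not at hcon
  obtain ⟨y0, hy0, h0⟩ := hcon 0
  obtain ⟨y1, hy1, h1⟩ := hcon 1
  unfold idx at h0 h1
  obtain ⟨m0, hm0⟩ := exists_int_near_of_floor_ne h0
  obtain ⟨m1, hm1⟩ := exists_int_near_of_floor_ne h1
  have hk : (0 : ℝ) < 2 ^ k := by positivity
  have hb : ∀ (y : ℝ) (s : ℝ), |y - x| ≤ ρ →
      |2 ^ k * (y / U - s) - 2 ^ k * (x / U - s)| < 1 / 6 := by
    intro y s hy
    have : (2 : ℝ) ^ k * (y / U - s) - 2 ^ k * (x / U - s) = (2 ^ k / U) * (y - x) := by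
      field_simp; ring
    rw [this, abs_mul, abs_of_pos (by positivity)]
    have h6 : ρ * 2 ^ k * 6 < U := by
      rw [lt_div_iff₀ hk] at hρ; linarith
    calc 2 ^ k / U * |y - x| ≤ 2 ^ k / U * ρ := by gcongr
      _ < 1 / 6 := by
        rw [div_mul_eq_mul_div, div_lt_div_iff₀ hU (by norm_num)]; linarith
  have e0 := lt_of_le_of_lt hm0 (hb y0 _ hy0)
  have e1 := lt_of_le_of_lt hm1 (hb y1 _ hy1)
  simp only [Fin.val_zero, Fin.val_one, Nat.cast_zero, Nat.cast_one, zero_div, sub_zero] at e0 e1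
  rw [abs_lt] at e0 e1
  have hlt : (3 * (m0 - m1) - 2 ^ k : ℤ) < 1 := by
    have : ((3 * (m0 - m1) - 2 ^ k : ℤ) : ℝ) < 1 := by push_cast; linarith [e0.2, e1.1]
    exact_mod_cast this
  have hgt : -1 < (3 * (m0 - m1) - 2 ^ k : ℤ) := by
    have : (-1 : ℝ) < ((3 * (m0 - m1) - 2 ^ k : ℤ) : ℝ) := by push_cast; linarith [e0.1, e1.2]
    exact_mod_cast this
  have heq : (3 : ℤ) ∣ 2 ^ k := ⟨m0 - m1, by omega⟩
  have := Int.Prime.dvd_pow' (p := 3) (by norm_num) heq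
  norm_num at this

lemma exists_level {U r : ℝ} (hr : 0 < r) (hU : 6 * r < U) :
    ∃ k : ℕ, 6 * r < U / 2 ^ k ∧ U / 2 ^ k ≤ 12 * r := by
  have hex : ∃ k : ℕ, U / 2 ^ (k + 1) ≤ 6 * r := by
    obtain ⟨k, hk⟩ := pow_unbounded_of_one_lt (U / (6 * r)) (by norm_num : (1 : ℝ) < 2)
    refine ⟨k, ?_⟩
    rw [div_lt_iff₀ (by positivity)] at hk
    rw [div_le_iff₀ (by positivity), pow_succ]
    have : (0 : ℝ) < 2 ^ k * (6 * r) := by positivity
    nlinarith
  classical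
  refine ⟨Nat.find hex, ?_, ?_⟩
  · rcases h : Nat.find hex with _ | k
    · simpa using hU
    · have := Nat.find_min hex (m := k) (by omega)
      exact not_le.1 this
  · have := Nat.find_spec hex
    rw [pow_succ, ← div_div, div_le_iff₀ (by norm_num)] at this
    linarith

/-- address of the square cell of level `k` containing `p` -/
noncomputable def cell (U : ℝ) (j : Fin 2 × Fin 2) (k : ℕ) (p : E) : ℤ × ℤ :=
  (idx U j.1 k (p 0), idx U j.2 k (p 1))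

lemma cell_mono {U : ℝ} {j : Fin 2 × Fin 2} {k l : ℕ} (hkl : k ≤ l) {p q : E}
    (h : cell U j l p = cell U j l q) : cell U j k p = cell U j k q := by
  unfold cell at h ⊢
  rw [Prod.mk.injEq] at h ⊢
  exact ⟨idx_mono hkl h.1, idx_mono hkl h.2⟩

lemma coord_le_dist (p q : E) (i : Fin 2) : |p i - q i| ≤ dist p q := by
  have := PiLp.dist_apply_le p q i
  rwa [Real.dist_eq] at this

lemma dist_lt_of_coords {p q : E} {ρ : ℝ} (h0 : |p 0 - q 0| < ρ) (h1 : |p 1 - q 1| < ρ) :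
    dist p q < 2 * ρ := by
  have hρ : 0 < ρ := lt_of_le_of_lt (abs_nonneg _) h0
  rw [EuclideanSpace.dist_eq, Fin.sum_univ_two, Real.sqrt_lt' (by positivity), Real.dist_eq,
    Real.dist_eq]
  have a0 := abs_nonneg (p 0 - q 0)
  have a1 := abs_nonneg (p 1 - q 1)
  nlinarith

/-- a common point of two tangent discs -/
lemma exists_common_point {a b : E} {ra rb : ℝ} (ha : 0 < ra) (hb : 0 < rb)
    (h : dist a b = ra + rb) : ∃ p : E, dist p a ≤ ra ∧ dist p b ≤ rb := by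
  obtain ⟨z, hz1, hz2⟩ := exists_dist_le_le (x := a) (z := b) ha.le hb.le (by rw [h, add_comm])
  exact ⟨z, by rw [dist_comm]; exact hz1, hz2⟩

/-- an inner disc of radius `ρ` near a given point of a disc of radius at least `ρ` -/
lemma exists_inner_point {a p : E} {r ρ : ℝ} (hρ : 0 < ρ) (hr : ρ ≤ r) (hp : dist p a ≤ r) :
    ∃ q : E, dist p q ≤ ρ ∧ dist q a ≤ r - ρ :=
  exists_dist_le_le hρ.le (by linarith) (by linarith)

lemma idx_range {U : ℝ} (hU : 0 < U) {j : Fin 2} {k : ℕ} {x : ℝ} {z : ℤ} (h : idx U j k x = z) :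
    0 ≤ x - (U * ((j : ℝ) / 3) + z * (U / 2 ^ k)) ∧
      x - (U * ((j : ℝ) / 3) + z * (U / 2 ^ k)) < U / 2 ^ k := by
  unfold idx at h
  rw [Int.floor_eq_iff] at h
  have hk : (0 : ℝ) < 2 ^ k := by positivity
  have e : x - (U * ((j : ℝ) / 3) + z * (U / 2 ^ k)) =
      (U / 2 ^ k) * (2 ^ k * (x / U - (j : ℝ) / 3) - z) := by
    field_simp; ring
  rw [e]
  have hpos : 0 < U / 2 ^ k := by positivity
  constructor
  · exact mul_nonneg hpos.le (by linarith [h.1])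
  · have : 2 ^ k * (x / U - (j : ℝ) / 3) - z < 1 := by linarith [h.2]
    nlinarith

lemma small_idx {ρ t : ℝ} (hρ : 0 < ρ) (h1 : -ρ ≤ t) (h2 : t < 13 * ρ) :
    0 ≤ ⌊t / ρ⌋ + 1 ∧ ⌊t / ρ⌋ + 1 < 14 := by
  constructor
  · have : (-1 : ℤ) ≤ ⌊t / ρ⌋ := by
      rw [Int.le_floor, le_div_iff₀ hρ]; push_cast; linarith
    omega
  · have : ⌊t / ρ⌋ < (13 : ℤ) := by
      rw [Int.floor_lt, div_lt_iff₀ hρ]; push_cast; linarith
    omega

lemma abs_lt_of_floor_eq {ρ s t : ℝ} (hρ : 0 < ρ) (h : ⌊s / ρ⌋ = ⌊t / ρ⌋) : |s - t| < ρ := by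
  have := Int.abs_sub_lt_one_of_floor_eq_floor h
  rw [← sub_div, abs_div, abs_of_pos hρ, div_lt_one hρ] at this
  exact this

/-- Discs at least as large as a cell (up to the factor 12) that meet the cell can be coloured
with 196 colours so that tangent discs get different colours. -/
lemma pierce {U : ℝ} (hU : 0 < U) (j : Fin 2 × Fin 2) (k : ℕ) (z : ℤ × ℤ) (r : E → ℝ) :
    ∃ f : E → ℕ, (∀ a, U / 2 ^ k ≤ 12 * r a → (∃ p, dist p a ≤ r a ∧ cell U j k p = z) →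
        f a < 196) ∧
      ∀ a b, U / 2 ^ k ≤ 12 * r a → U / 2 ^ k ≤ 12 * r b →
        (∃ p, dist p a ≤ r a ∧ cell U j k p = z) → (∃ p, dist p b ≤ r b ∧ cell U j k p = z) →
        dist a b = r a + r b → f a ≠ f b := by
  set ρ : ℝ := U / 2 ^ k / 12 with hρdef
  have hρ : 0 < ρ := by positivity
  set x0 : ℝ := U * ((j.1 : ℝ) / 3) + z.1 * (U / 2 ^ k) with hx0
  set y0 : ℝ := U * ((j.2 : ℝ) / 3) + z.2 * (U / 2 ^ k) with hy0
  have hq : ∀ a : E, ∃ q : E, U / 2 ^ k ≤ 12 * r a → (∃ p, dist p a ≤ r a ∧ cell U j k p = z) →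
      dist q a ≤ r a - ρ ∧ (0 ≤ ⌊(q 0 - x0) / ρ⌋ + 1 ∧ ⌊(q 0 - x0) / ρ⌋ + 1 < 14) ∧
        (0 ≤ ⌊(q 1 - y0) / ρ⌋ + 1 ∧ ⌊(q 1 - y0) / ρ⌋ + 1 < 14) := by
    intro a
    by_cases h : U / 2 ^ k ≤ 12 * r a ∧ ∃ p, dist p a ≤ r a ∧ cell U j k p = z
    · obtain ⟨h1, p, hp, hc⟩ := h
      obtain ⟨q, hq1, hq2⟩ := exists_inner_point hρ (by rw [hρdef]; linarith) hp
      refine ⟨q, fun _ _ => ⟨hq2, ?_, ?_⟩⟩
      · have e1 : idx U j.1 k (p 0) = z.1 := congrArg Prod.fst hc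
        have e2 := idx_range hU e1
        have e3 := abs_le.1 ((coord_le_dist p q 0).trans hq1)
        apply small_idx hρ
        · linarith [e2.1, e3.2]
        · linarith [e2.2, e3.1]
      · have e1 : idx U j.2 k (p 1) = z.2 := congrArg Prod.snd hc
        have e2 := idx_range hU e1
        have e3 := abs_le.1 ((coord_le_dist p q 1).trans hq1)
        apply small_idx hρ
        · linarith [e2.1, e3.2]
        · linarith [e2.2, e3.1]
    · exact ⟨a, fun h1 h2 => absurd ⟨h1, h2⟩ h⟩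
  choose q hq using hq
  refine ⟨fun a => 14 * (⌊(q a 0 - x0) / ρ⌋ + 1).toNat + (⌊(q a 1 - y0) / ρ⌋ + 1).toNat, ?_, ?_⟩
  · intro a h1 h2
    obtain ⟨_, e1, e2⟩ := hq a h1 h2
    show 14 * (⌊(q a 0 - x0) / ρ⌋ + 1).toNat + (⌊(q a 1 - y0) / ρ⌋ + 1).toNat < 196
    omega
  · intro a b ha hb ha2 hb2 hd hf
    obtain ⟨da, e1, e2⟩ := hq a ha ha2
    obtain ⟨db, e3, e4⟩ := hq b hb hb2
    have hf' : 14 * (⌊(q a 0 - x0) / ρ⌋ + 1).toNat + (⌊(q a 1 - y0) / ρ⌋ + 1).toNat =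
        14 * (⌊(q b 0 - x0) / ρ⌋ + 1).toNat + (⌊(q b 1 - y0) / ρ⌋ + 1).toNat := hf
    have f0 : ⌊(q a 0 - x0) / ρ⌋ = ⌊(q b 0 - x0) / ρ⌋ := by omega
    have f1 : ⌊(q a 1 - y0) / ρ⌋ = ⌊(q b 1 - y0) / ρ⌋ := by omega
    have g0 := abs_lt_of_floor_eq hρ f0
    have g1 := abs_lt_of_floor_eq hρ f1
    rw [sub_sub_sub_cancel_right] at g0 g1
    have hqq := dist_lt_of_coords g0 g1
    have := dist_triangle4 a (q a) (q b) b
    rw [dist_comm a (q a)] at this
    linarith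

/-- Upper bound: fewer than `2 ^ m` discs can be coloured with `784 m` colours so that tangent
discs get different colours. -/
theorem upper (A : Finset E) (r : E → ℝ) (hr : ∀ a ∈ A, 0 < r a) (m : ℕ) (hm : A.card < 2 ^ m) :
    ∃ col : E → ℕ, (∀ a ∈ A, col a < 784 * m) ∧
      ∀ a ∈ A, ∀ b ∈ A, dist a b = r a + r b → col a ≠ col b := by
  classical
  obtain ⟨U, hU, hUr⟩ : ∃ U : ℝ, 0 < U ∧ ∀ a ∈ A, 6 * r a < U := by
    refine ⟨6 * (∑ a ∈ A, r a) + 1, ?_, ?_⟩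
    · have : 0 ≤ ∑ a ∈ A, r a := Finset.sum_nonneg fun a ha => (hr a ha).le
      linarith
    · intro a ha
      have : r a ≤ ∑ a ∈ A, r a := Finset.single_le_sum (fun a ha => (hr a ha).le) ha
      linarith
  have hlev : ∀ a : E, ∃ k : ℕ, ∃ j : Fin 2 × Fin 2, a ∈ A → U / 2 ^ k ≤ 12 * r a ∧
      ∀ p, dist p a ≤ r a → cell U j k p = cell U j k a := by
    intro a
    by_cases ha : a ∈ A
    · obtain ⟨k, hk1, hk2⟩ := exists_level (hr a ha) (hUr a ha)
      obtain ⟨j0, hj0⟩ := exists_shift hU k (a 0) (r a) hk1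
      obtain ⟨j1, hj1⟩ := exists_shift hU k (a 1) (r a) hk1
      refine ⟨k, (j0, j1), fun _ => ⟨hk2, fun p hp => ?_⟩⟩
      unfold cell
      rw [hj0 _ ((coord_le_dist p a 0).trans hp), hj1 _ ((coord_le_dist p a 1).trans hp)]
    · exact ⟨0, (0, 0), fun h => absurd h ha⟩
  choose lev sh hlev using hlev
  have hclass : ∀ j : Fin 2 × Fin 2, ∃ col : E → ℕ,
      (∀ v ∈ A.filter (fun a => sh a = j), col v < 196 * m) ∧
      ∀ v ∈ A.filter (fun a => sh a = j), ∀ w ∈ A.filter (fun a => sh a = j),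
        dist v w = r v + r w → col v ≠ col w := by
    intro j
    have hin : ∀ v ∈ A.filter (fun a => sh a = j), ∀ k, k ≤ lev v → ∀ p, dist p v ≤ r v →
        cell U j k p = cell U j k v := by
      intro v hv k hk p hp
      rw [Finset.mem_filter] at hv
      have := (hlev v hv.1).2 p hp
      rw [hv.2] at this
      exact cell_mono hk this
    have hbig : ∀ v ∈ A.filter (fun a => sh a = j), ∀ k, lev v ≤ k → U / 2 ^ k ≤ 12 * r v := by
      intro v hv k hk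
      rw [Finset.mem_filter] at hv
      refine le_trans ?_ (hlev v hv.1).1
      gcongr
      norm_num
    have hr' : ∀ v ∈ A.filter (fun a => sh a = j), 0 < r v :=
      fun v hv => hr v (Finset.mem_filter.1 hv).1
    refine rec_colour (fun a b => dist a b = r a + r b) ?_ lev (cell U j)
      (fun k z a => ∃ p, dist p a ≤ r a ∧ cell U j k p = z) 196 (A.filter (fun a => sh a = j))
      ?_ ?_ ?_ ?_ m _ (Finset.Subset.refl _)
      (lt_of_le_of_lt (Finset.card_filter_le _ _) hm)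
    · intro v w h
      rw [dist_comm, add_comm]; exact h
    · intro v hv w hw h k hkv hkw
      obtain ⟨p, hp1, hp2⟩ := exists_common_point (hr' v hv) (hr' w hw) h
      rw [← hin v hv k hkv p hp1, hin w hw k hkw p hp2]
    · intro v hv k
      exact ⟨v, by simpa using (hr' v hv).le, rfl⟩
    · rintro v hv w hw h k z hk ⟨q, hq1, hq2⟩
      obtain ⟨p, hp1, hp2⟩ := exists_common_point (hr' v hv) (hr' w hw) h
      exact ⟨p, hp2, by rw [hin v hv k hk p hp1, ← hin v hv k hk q hq1, hq2]⟩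
    · intro k z
      obtain ⟨f, hf1, hf2⟩ := pierce hU j k z r
      refine ⟨f, fun v hv hk hmeet => hf1 v (hbig v hv k hk) hmeet, ?_⟩
      intro v hv w hw hkv hkw hmv hmw h
      exact hf2 v w (hbig v hv k hkv) (hbig w hw k hkw) hmv hmw h
  choose col hcol1 hcol2 using hclass
  refine ⟨fun a => 4 * col (sh a) a + 2 * ((sh a).1 : ℕ) + ((sh a).2 : ℕ), ?_, ?_⟩
  · intro a ha
    have := hcol1 (sh a) a (Finset.mem_filter.2 ⟨ha, rfl⟩)
    have h1 := (sh a).1.isLt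
    have h2 := (sh a).2.isLt
    show 4 * col (sh a) a + 2 * ((sh a).1 : ℕ) + ((sh a).2 : ℕ) < 784 * m
    omega
  · intro a ha b hb h hc
    have hc' : 4 * col (sh a) a + 2 * ((sh a).1 : ℕ) + ((sh a).2 : ℕ) =
        4 * col (sh b) b + 2 * ((sh b).1 : ℕ) + ((sh b).2 : ℕ) := hc
    have h1 := (sh a).1.isLt
    have h2 := (sh a).2.isLt
    have h3 := (sh b).1.isLt
    have h4 := (sh b).2.isLt
    have hs : sh a = sh b := Prod.ext (Fin.ext (by omega)) (Fin.ext (by omega))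
    have := hcol2 (sh a) a (Finset.mem_filter.2 ⟨ha, rfl⟩) b (Finset.mem_filter.2 ⟨hb, hs.symm⟩) h
    rw [← hs] at hc'
    omega

end Pool.Agent.Lib.MP_af9f8b_co
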