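import Mathlib
import Pool.Agent.Lib.MP_af9f8b_co.Upper

set_option autoImplicit false

namespace Pool.Agent.Lib.MP_af9f8b_co

/-- centre of the disc whose horizontal diameter is `[2 ^ i, 2 ^ j]` -/
noncomputable def ctr (e : ℕ × ℕ) : E := EuclideanSpace.single 0 ((2 ^ e.1 + 2 ^ e.2) / 2 : ℝ)

lemma two_pow_sum_inj {i j k l : ℕ} (hij : i < j) (hkl : k < l)
    (h : 2 ^ i + 2 ^ j = 2 ^ k + 2 ^ l) : i = k ∧ j = l := by
  have key : ∀ {i j k l : ℕ}, i < j → k < l → j < l → 2 ^ i + 2 ^ j ≠ 2 ^ k + 2 ^ l := by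
    intro i j k l hij _ hjl h
    have h1 : 2 ^ i < 2 ^ j := Nat.pow_lt_pow_right (by norm_num) hij
    have h2 : 2 ^ (j + 1) ≤ 2 ^ l := Nat.pow_le_pow_right (by norm_num) hjl
    have h3 : 0 < 2 ^ k := by positivity
    rw [pow_succ] at h2
    omega
  have hjl : j = l := by
    rcases lt_trichotomy j l with h1 | h1 | h1
    · exact absurd h (key hij hkl h1)
    · exact h1
    · exact absurd h.symm (key hkl hij h1)
  subst hjl
  have : 2 ^ i = 2 ^ k := by omega
  exact ⟨Nat.pow_right_injective (le_refl 2) this, rfl⟩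

lemma ctr_inj {e e' : ℕ × ℕ} (he : e.1 < e.2) (he' : e'.1 < e'.2) (h : ctr e = ctr e') :
    e = e' := by
  have h0 : (ctr e) 0 = (ctr e') 0 := by rw [h]
  simp only [ctr, PiLp.single_apply, if_true] at h0
  have h1 : ((2 ^ e.1 + 2 ^ e.2 : ℕ) : ℝ) = ((2 ^ e'.1 + 2 ^ e'.2 : ℕ) : ℝ) := by
    push_cast; linarith
  have h2 := two_pow_sum_inj he he' (by exact_mod_cast h1)
  exact Prod.ext h2.1 h2.2

lemma dist_ctr {i j l : ℕ} (hij : i < j) (hjl : j < l) :
    dist (ctr (i, j)) (ctr (j, l)) = ((2 : ℝ) ^ j - 2 ^ i) / 2 + ((2 : ℝ) ^ l - 2 ^ j) / 2 := by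
  unfold ctr
  rw [PiLp.dist_single_same, Real.dist_eq]
  have h1 : (2 : ℝ) ^ i < 2 ^ l := pow_lt_pow_right₀ (by norm_num) (hij.trans hjl)
  rw [abs_of_neg (by simp only; linarith)]
  simp only
  ring

/-- Lower bound (shift graph): for every `n` there are `n` discs with distinct centres such that
every colouring with `k` colours separating tangent discs has `Nat.sqrt n ≤ 2 ^ k`. -/
theorem lower (n : ℕ) : ∃ (A : Finset E) (r : E → ℝ), A.card = n ∧ (∀ a ∈ A, 0 < r a) ∧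
    ∀ (k : ℕ) (col : A → Fin k),
      (∀ a b : A, a ≠ b → dist (a : E) b = r a + r b → col a ≠ col b) → Nat.sqrt n ≤ 2 ^ k := by
  classical
  set N := Nat.sqrt n with hN
  let P : Finset (ℕ × ℕ) := (Finset.range N ×ˢ Finset.range N).filter (fun e => e.1 < e.2)
  have hcard : (P.image ctr).card ≤ n := by
    calc (P.image ctr).card ≤ P.card := Finset.card_image_le
      _ ≤ (Finset.range N ×ˢ Finset.range N).card := Finset.card_filter_le _ _
      _ = N * N := by simp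
      _ ≤ n := Nat.sqrt_le n
  obtain ⟨A, hA1, hA2⟩ := Infinite.exists_superset_card_eq (P.image ctr) n hcard
  have hrad : ∀ a : E, ∃ ρ : ℝ, 0 < ρ ∧
      ∀ e : ℕ × ℕ, e.1 < e.2 → ctr e = a → ρ = ((2 : ℝ) ^ e.2 - 2 ^ e.1) / 2 := by
    intro a
    by_cases h : ∃ e : ℕ × ℕ, e.1 < e.2 ∧ ctr e = a
    · obtain ⟨e, he, hea⟩ := h
      refine ⟨((2 : ℝ) ^ e.2 - 2 ^ e.1) / 2, ?_, ?_⟩
      · have : (2 : ℝ) ^ e.1 < 2 ^ e.2 := pow_lt_pow_right₀ (by norm_num) he
        linarith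
      · intro e' he' hea'
        rw [ctr_inj he he' (hea.trans hea'.symm)]
    · exact ⟨1, one_pos, fun e he hea => absurd ⟨e, he, hea⟩ h⟩
  choose r hr0 hr using hrad
  refine ⟨A, r, hA2, fun a _ => hr0 a, ?_⟩
  intro k col hcol
  have hmem : ∀ i j : Fin N, i < j → ctr (i, j) ∈ A := by
    intro i j hij
    apply hA1
    apply Finset.mem_image_of_mem
    simp only [P, Finset.mem_filter, Finset.mem_product, Finset.mem_range]
    exact ⟨⟨i.isLt, j.isLt⟩, hij⟩
  let S : Fin N → Finset (Fin k) := fun i =>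
    Finset.univ.filter (fun c => ∃ j : Fin N, ∃ h : i < j, col ⟨ctr (i, j), hmem i j h⟩ = c)
  have hS : ∀ i j : Fin N, i < j → S i ≠ S j := by
    intro i j hij hEq
    have h1 : col ⟨ctr (i, j), hmem i j hij⟩ ∈ S i := by
      simp only [S, Finset.mem_filter, Finset.mem_univ, true_and]
      exact ⟨j, hij, rfl⟩
    rw [hEq] at h1
    simp only [S, Finset.mem_filter, Finset.mem_univ, true_and] at h1
    obtain ⟨l, hjl, hc⟩ := h1
    have hij' : (i : ℕ) < j := hij
    have hjl' : (j : ℕ) < l := hjl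
    refine hcol ⟨ctr (i, j), hmem i j hij⟩ ⟨ctr (j, l), hmem j l hjl⟩ ?_ ?_ hc.symm
    · intro hh
      have h2 : ctr ((i : ℕ), (j : ℕ)) = ctr ((j : ℕ), (l : ℕ)) := congrArg Subtype.val hh
      have h3 := ctr_inj (e := ((i : ℕ), (j : ℕ))) (e' := ((j : ℕ), (l : ℕ))) hij' hjl' h2
      have h4 : (i : ℕ) = j := congrArg Prod.fst h3
      omega
    · show dist (ctr ((i : ℕ), (j : ℕ))) (ctr ((j : ℕ), (l : ℕ))) =
        r (ctr ((i : ℕ), (j : ℕ))) + r (ctr ((j : ℕ), (l : ℕ)))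
      rw [hr _ ((i : ℕ), (j : ℕ)) hij' rfl, hr _ ((j : ℕ), (l : ℕ)) hjl' rfl]
      exact dist_ctr hij' hjl'
  have hinj : Function.Injective S := by
    intro i j h
    rcases lt_trichotomy i j with h1 | h1 | h1
    · exact absurd h (hS i j h1)
    · exact h1
    · exact absurd h.symm (hS j i h1)
  have := Fintype.card_le_of_injective S hinj
  simpa using this

end Pool.Agent.Lib.MP_af9f8b_co
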